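import Mathlib
import Pool.Agent.H1.CdcB

namespace Pool.Agent.Results.MP_ff63d6_co.Proof

open Finset Pool.Agent.H1.Par Pool.Agent.H1.Cdc

section
variable {V E : Type} [Fintype V] [DecidableEq V] [Fintype E] [DecidableEq E] {s t : E → V}

omit [Fintype E] [DecidableEq E] in
lemma sum_deg (hl : ∀ e, s e ≠ t e) (S : Finset E) : ∑ v, deg s t S v = 2 * S.card := by
  simp only [deg, Finset.card_filter]
  rw [Finset.sum_comm, mul_comm, ← smul_eq_mul, ← Finset.sum_const]
  refine Finset.sum_congr rfl fun e _ => ?_
  rw [← Finset.card_filter]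
  have : (univ.filter fun v => s e = v ∨ t e = v) = {s e, t e} := by
    ext v; simp [eq_comm]
  rw [this, Finset.card_pair (hl e)]

omit [Fintype E] [DecidableEq E] in
lemma off_unique (hl : ∀ e, s e ≠ t e) {L : Finset E} (hL : IsCircuit s t L)
    (hlen : Fintype.card V - 1 ≤ L.card) {u v : V} (hu : deg s t L u = 0) (hv : deg s t L v = 0) :
    u = v := by
  by_contra hne
  have h1 := sum_deg hl L
  have h2 : ∑ w, deg s t L w ≤ ∑ w ∈ (univ.erase u).erase v, 2 := by
    rw [← Finset.add_sum_erase _ _ (mem_univ u),
      ← Finset.add_sum_erase _ _ (mem_erase.mpr ⟨Ne.symm hne, mem_univ v⟩), hu, hv]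
    simp only [zero_add]
    exact Finset.sum_le_sum fun w _ => by rcases hL.2.1 w with h | h <;> omega
  have h3 : ((univ.erase u).erase v).card + 2 = Fintype.card V := by
    rw [Finset.card_erase_of_mem (mem_erase.mpr ⟨Ne.symm hne, mem_univ v⟩),
      Finset.card_erase_of_mem (mem_univ u), Finset.card_univ]
    have : 1 < Fintype.card V := Fintype.one_lt_card_iff.mpr ⟨u, v, hne⟩
    omega
  simp only [Finset.sum_const, smul_eq_mul] at h2
  omega

omit [Fintype V] [Fintype E] in
lemma bd_split {S T : Finset E} (h : T ⊆ S) (β : E → F) (v : V) :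
    bd s t S β v = bd s t (S \ T) β v + bd s t T β v := by
  simp only [bd]
  rw [Finset.sum_sdiff h]

omit [Fintype V] [Fintype E] [DecidableEq E] in
lemma bd_off {C : Finset E} {v : V} (hv : ∀ e ∈ C, s e ≠ v ∧ t e ≠ v) (β : E → F) :
    bd s t C β v = 0 :=
  Finset.sum_eq_zero fun e he => by simp [inc, (hv e he).1, (hv e he).2]

omit [Fintype V] [Fintype E] [DecidableEq E] in
lemma circ_even {C : Finset E} (hC : IsCircuit s t C) (v : V) : Even (deg s t C v) := by
  rcases hC.2.1 v with h | h <;> rw [h] <;> decide

lemma ext_flow {L : Finset E} (hL : IsCircuit s t L) (X : Finset E) (y : E → F)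
    (hX : ∀ v, deg s t L v = 0 → bd s t X y v = 0) :
    ∃ β : E → F, ∀ v, bd s t L β v = bd s t X y v := by
  apply tjoin
  intro σ hσ
  obtain ⟨c, hc⟩ := circ_conn hL σ hσ
  have : ∀ v, σ v * bd s t X y v = c * bd s t X y v := by
    intro v
    by_cases hv : deg s t L v = 0
    · simp [hX v hv]
    · rw [deg_eq_zero] at hv
      push Not at hv
      obtain ⟨e, he, h⟩ := hv
      by_cases h1 : s e = v
      · rw [← h1, hc e he]
      · rw [← h h1, ← hσ e he, hc e he]
  rw [Finset.sum_congr rfl fun v _ => this v, ← Finset.mul_sum, sum_bd, mul_zero]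

end

theorem result (V E : Type) [Fintype V] [DecidableEq V] [Fintype E] [DecidableEq E]
    (s t : E → V) (hloop : ∀ e, s e ≠ t e) (hcubic : ∀ v, deg s t univ v = 3)
    (hcirc : ∃ L, IsCircuit s t L ∧ Fintype.card V - 1 ≤ L.card)
    (C : Finset E) (hC : IsCircuit s t C) :
    ∃ 𝓕 : Multiset (Finset E), (∀ K ∈ 𝓕, IsCircuit s t K) ∧ C ∈ 𝓕 ∧
      ∀ e, (𝓕.filter fun K => e ∈ K).card = 2 := by
  obtain ⟨L, hL, hlen⟩ := hcirc
  by_cases hcase : ∃ w, deg s t L w = 0 ∧ deg s t C w ≠ 0
  · -- `C` passes through the vertex missed by `L`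
    obtain ⟨w, hw, hwC⟩ := hcase
    rw [Ne, deg_eq_zero] at hwC
    push Not at hwC
    obtain ⟨e1, he1, he1w⟩ := hwC
    have he1w' : s e1 = w ∨ t e1 = w := by tauto
    have he1L : e1 ∉ L := fun h => by
      have := deg_eq_zero.mp hw e1 h
      tauto
    let X : Finset E := (univ \ L).erase e1
    obtain ⟨β, hβ⟩ := ext_flow hL X (fun _ => 1) (by
      intro v hv
      obtain rfl := off_unique hloop hL hlen hv hw
      rw [bd_one hloop]
      have : (X.filter fun e => s e = v ∨ t e = v)
          = (univ.filter fun e => s e = v ∨ t e = v).erase e1 := by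
        ext e
        simp only [X, mem_filter, mem_erase, mem_sdiff, mem_univ, true_and]
        constructor
        · tauto
        · rintro ⟨h1, h2⟩
          refine ⟨⟨h1, fun h => ?_⟩, h2⟩
          have := deg_eq_zero.mp hv e h
          tauto
      rw [deg, this, Finset.card_erase_of_mem (by simpa using he1w')]
      have := hcubic v
      rw [deg] at this
      rw [this]; decide)
    let g1 : E → F := fun e => if e ∈ L then 1 else 0
    let g2 : E → F := fun e => if e ∈ L then β e else if e = e1 then 0 else 1
    have hg1 : ∀ v, bd s t univ g1 v = 0 := by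
      intro v
      rw [bd_split (subset_univ L)]
      have a1 : bd s t (univ \ L) g1 v = 0 :=
        Finset.sum_eq_zero fun e he => by simp [g1, (mem_sdiff.mp he).2]
      have a2 : bd s t L g1 v = bd s t L (fun _ => 1) v :=
        Finset.sum_congr rfl fun e he => by simp [g1, he]
      rw [a1, a2, bd_one hloop, zero_add, ZMod.natCast_eq_zero_iff_even]
      exact circ_even hL v
    have hg2 : ∀ v, bd s t univ g2 v = 0 := by
      intro v
      rw [bd_split (subset_univ L)]
      have a1 : bd s t (univ \ L) g2 v = bd s t X (fun _ => 1) v := by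
        simp only [bd]
        rw [← Finset.add_sum_erase _ _ (show e1 ∈ univ \ L by simpa using he1L)]
        have : g2 e1 = 0 := by simp [g2, he1L]
        rw [this, mul_zero, zero_add]
        refine Finset.sum_congr rfl fun e he => ?_
        have h1 := (mem_erase.mp he).1
        have h2 := (mem_sdiff.mp (mem_erase.mp he).2).2
        simp [g2, h1, h2]
      have a2 : bd s t L g2 v = bd s t L β v :=
        Finset.sum_congr rfl fun e he => by simp [g2, he]
      rw [a1, a2, hβ, add_self']
    obtain ⟨D, hD, hc⟩ := four hloop hC (univ \ C) disjoint_sdiff g1 g2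
      (by
        intro e he
        by_cases h : e ∈ L
        · left; simp [g1, h]
        · right
          have : e ≠ e1 := fun h' => (mem_sdiff.mp he).2 (h' ▸ he1)
          simp [g2, h, this])
      (by
        intro v hv
        have a1 := hg1 v
        have a2 := hg2 v
        rw [bd_split (subset_univ C), bd_off hv, add_zero] at a1 a2
        exact ⟨a1, a2⟩)
    obtain ⟨M, hM, hMc⟩ := decomp_family hcubic D hD
    refine ⟨C ::ₘ M, ?_, Multiset.mem_cons_self _ _, fun e => ?_⟩
    · intro K hK
      rcases Multiset.mem_cons.mp hK with rfl | h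
      · exact hC
      · exact hM K h
    · rw [Multiset.filter_cons, Multiset.card_add, hMc, hc]
      by_cases h : e ∈ C <;> simp [h]
  · -- every vertex of `C` lies on `L`
    push Not at hcase
    have hg : ∃ g1 g2 : E → F, (∀ e, g1 e ≠ 0 ∨ g2 e ≠ 0) ∧ ∀ v, deg s t L v = 0 →
        bd s t univ g1 v = 0 ∧ bd s t univ g2 v = 0 := by
      by_cases hw : ∃ w, deg s t L w = 0
      · obtain ⟨w, hw⟩ := hw
        obtain ⟨a, b, c, hab, hac, hbc, h⟩ := Finset.card_eq_three.mp (hcubic w)
        refine ⟨fun e => if e = b then 0 else 1, fun e => if e = a then 0 else 1, fun e => ?_,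
          fun v hv => ?_⟩
        · by_cases h1 : e = b
          · right
            have : e ≠ a := fun h' => hab (h'.symm.trans h1)
            simp [this]
          · left; simp [h1]
        · obtain rfl := off_unique hloop hL hlen hv hw
          rw [bd_eq hloop, bd_eq hloop, h]
          rw [Finset.sum_insert (by simp [hab, hac]), Finset.sum_pair hbc,
            Finset.sum_insert (by simp [hab, hac]), Finset.sum_pair hbc]
          simp only [hab, hab.symm, hac.symm, hbc.symm, if_true, if_false]
          decide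
      · exact ⟨fun _ => 1, fun _ => 1, fun _ => Or.inl one_ne_zero,
          fun v hv => absurd ⟨v, hv⟩ hw⟩
    obtain ⟨g1, g2, hg, hcons⟩ := hg
    obtain ⟨D, hD, hc⟩ := four hloop hL (univ \ (L ∪ C))
      (Finset.disjoint_left.mpr fun e he h => (mem_sdiff.mp h).2 (mem_union_left _ he)) g1 g2
      (fun e _ => hg e)
      (by
        intro v hv
        have hv0 := deg_eq_zero.mpr hv
        have hv1 := deg_eq_zero.mp (hcase v hv0)
        have hv2 : ∀ e ∈ L ∪ C, s e ≠ v ∧ t e ≠ v := fun e he =>
          (mem_union.mp he).elim (hv e) (hv1 e)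
        obtain ⟨a1, a2⟩ := hcons v hv0
        rw [bd_split (subset_univ (L ∪ C)), bd_off hv2, add_zero] at a1 a2
        exact ⟨a1, a2⟩)
    obtain ⟨M, hM, hMc⟩ := decomp_family hcubic D hD
    have hsd : ∀ v, Even (deg s t ((C \ L) ∪ (L \ C)) v) := by
      intro v
      rw [← ZMod.natCast_eq_zero_iff_even, ← bd_one hloop]
      have a1 := (ZMod.natCast_eq_zero_iff_even).mpr (circ_even hC v)
      have a2 := (ZMod.natCast_eq_zero_iff_even).mpr (circ_even hL v)
      rw [← bd_one hloop] at a1 a2
      rw [bd_split (inter_subset_left (s₂ := L)), sdiff_inter_self_left] at a1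
      rw [bd_split (inter_subset_right (s₁ := C)), sdiff_inter_self_right] at a2
      have a3 : bd s t ((C \ L) ∪ (L \ C)) (fun _ => 1) v
          = bd s t (C \ L) (fun _ => 1) v + bd s t (L \ C) (fun _ => 1) v := by
        simp only [bd]
        rw [Finset.sum_union disjoint_sdiff_sdiff]
      rw [a3, CharTwo.add_eq_zero.mp a1, CharTwo.add_eq_zero.mp a2, add_self']
    obtain ⟨M', hM', hMc'⟩ := decomp _ (deg02 hcubic hsd)
    refine ⟨C ::ₘ (M + M'), ?_, Multiset.mem_cons_self _ _, fun e => ?_⟩
    · intro K hK
      rcases Multiset.mem_cons.mp hK with rfl | h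
      · exact hC
      · rcases Multiset.mem_add.mp h with h | h
        · exact hM K h
        · exact hM' K h
    · rw [Multiset.filter_cons, Multiset.card_add, Multiset.filter_add, Multiset.card_add, hMc,
        hc, hMc']
      by_cases h : e ∈ C <;> by_cases h' : e ∈ L <;> simp [h, h']

end Pool.Agent.Results.MP_ff63d6_co.Proof
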